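import Mathlib

set_option autoImplicit false

/-!
# An integer base
-/

namespace Pool.Agent.H176B

/-- an integer base `b ≥ 2` -/
class Bs where
  /-- the base -/
  b : ℕ
  two_le : 2 ≤ b

section

variable [Bs]

@[simp] lemma two_le_bs : 2 ≤ Bs.b := Bs.two_le
@[simp] lemma one_lt_bs : 1 < Bs.b := Bs.two_le
@[simp] lemma one_le_bs : 1 ≤ Bs.b := one_lt_bs.le
@[simp] lemma bs_pos : 0 < Bs.b := one_le_bs
@[simp] lemma bs_ne_zero : Bs.b ≠ 0 := bs_pos.ne'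
@[simp] lemma bs_ne_one : Bs.b ≠ 1 := one_lt_bs.ne'
@[simp] lemma two_le_bsr : (2 : ℝ) ≤ (Bs.b : ℝ) := by exact_mod_cast two_le_bs
@[simp] lemma one_lt_bsr : (1 : ℝ) < (Bs.b : ℝ) := by exact_mod_cast one_lt_bs
@[simp] lemma one_le_bsr : (1 : ℝ) ≤ (Bs.b : ℝ) := one_lt_bsr.le
@[simp] lemma bsr_pos : (0 : ℝ) < (Bs.b : ℝ) := by exact_mod_cast bs_pos
@[simp] lemma bsr_nonneg : (0 : ℝ) ≤ (Bs.b : ℝ) := bsr_pos.le
@[simp] lemma bsr_ne_zero : (Bs.b : ℝ) ≠ 0 := bsr_pos.ne'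

lemma one_le_bs_pow {n : ℕ} : 1 ≤ Bs.b ^ n := Nat.one_le_pow _ _ bs_pos

lemma log_bs_two : Real.log 2 ≤ Real.log Bs.b := Real.log_le_log (by norm_num) two_le_bsr

lemma log_bs_gt_d9 : 0.6931471803 < Real.log Bs.b := lt_of_lt_of_le Real.log_two_gt_d9 log_bs_two

lemma log_bs_pos : 0 < Real.log Bs.b := lt_of_lt_of_le (Real.log_pos one_lt_two) log_bs_two

lemma bs_pow_rpow (n : ℕ) (x : ℝ) : ((Bs.b : ℝ) ^ n) ^ x = (Bs.b : ℝ) ^ ((n : ℝ) * x) := by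
  rw [← Real.rpow_natCast, ← Real.rpow_mul (by norm_num)]

lemma bs_pow_cast (n : ℕ) : ((Bs.b : ℝ) ^ n) = (Bs.b : ℝ) ^ ((n : ℝ)) := (Real.rpow_natCast _ n).symm

end

end Pool.Agent.H176B
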