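import Mathlib
import Pool.Agent.H176M.Itv
import Pool.Agent.H176B.Rgh3
import Pool.Agent.H305R2.Mean

set_option autoImplicit false

/-!
# The conditional means given the leading digits
-/

namespace Pool.Agent.H176B

open Pool.Agent.H176M

open Finset Filter MeasureTheory
open Pool.Agent.H305R2 (roughPart SM SMz SM_pos mem_SMz VV sum_le_VV NN ff FF FF_sub FF_mono FF_sub_le LL LL_eq
  LL_nonneg LL_le_one ff_nonneg ff_le_one measurable_ff integrableOn_ff mem_Ioc_log)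
open Pool.Agent.W66 (VV_le_log)

variable [Bs]

/-- the density is at most `C log ℓ / ℓ`, and varies slowly -/
lemma nu_bounds (ε : ℝ) (hε : 0 < ε) (hε1 : ε ≤ 1 / 12) (c : ℕ) : ∃ C : ℝ, 0 < C ∧ ∃ L₀ : ℕ, ∀ ℓ : ℕ, L₀ ≤ ℓ →
    ∀ K H : ℕ, Bs.b ^ ℓ ≤ Bs.b ^ c * (H * K) →
    (0 ≤ nu ℓ (Mb ε ℓ) K H ∧ nu ℓ (Mb ε ℓ) K H ≤ C * (Real.log ℓ / ℓ)) ∧
    ∀ H' : ℕ, Bs.b ^ ℓ ≤ Bs.b ^ c * (H' * K) → H ≤ 100 * H' → H' ≤ 100 * H →
      |nu ℓ (Mb ε ℓ) K H - nu ℓ (Mb ε ℓ) K H'| ≤ C * (Real.log ℓ / (ℓ : ℝ) ^ 2) := by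
  have hbs0 := bs_pos
  obtain ⟨CV, hCV, hVev⟩ := VV_le_log
  obtain ⟨L₁, hL⟩ := eventually_atTop.1 (hVev.and (tendsto_natCast_atTop_atTop.eventually_ge_atTop
    (16 * (c : ℝ) + 100)))
  refine ⟨16 * CV * 5, by positivity, L₁ + 1, fun ℓ hℓ K H hH => ?_⟩
  obtain ⟨l1, l2⟩ := hL ℓ (by omega)
  have hℓ0 : (0 : ℝ) < ℓ := by exact_mod_cast (by omega : 0 < ℓ)
  have hc0 : (0 : ℝ) ≤ c := Nat.cast_nonneg c
  -- lower bound of the logarithms
  have hlog : ∀ H' : ℕ, Bs.b ^ ℓ ≤ Bs.b ^ c * (H' * K) → ∀ s ∈ SMz ℓ ((Mb ε ℓ : ℕ) : ℝ),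
      (0 : ℝ) < s ∧ (ℓ : ℝ) / 4 ≤ Real.log ((H' : ℝ) * K / s) ∧ (0 : ℝ) < H' ∧ (0 : ℝ) < K := by
    intro H' hH' s hs
    rw [mem_SMz (by positivity)] at hs
    have hs0 : (0 : ℝ) < s := by exact_mod_cast SM_pos hs.1
    have h1 : ((Bs.b ^ ℓ : ℕ) : ℝ) ≤ ((Bs.b ^ c * (H' * K) : ℕ) : ℝ) := by exact_mod_cast hH'
    push_cast at h1
    have h3 : (0 : ℝ) < (H' : ℝ) * K := by
      by_contra hcon
      have : (H' : ℝ) * K = 0 := le_antisymm (not_lt.1 hcon) (by positivity)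
      rw [this, mul_zero] at h1
      have : (0 : ℝ) < Bs.b ^ ℓ := by positivity
      linarith
    have hH'0 : (0 : ℝ) < H' := by
      by_contra hcon
      have : (H' : ℝ) = 0 := le_antisymm (not_lt.1 hcon) (by positivity)
      rw [this, zero_mul] at h3
      exact lt_irrefl _ h3
    have hK0 : (0 : ℝ) < K := pos_of_mul_pos_right h3 hH'0.le
    refine ⟨hs0, ?_, hH'0, hK0⟩
    have h2 : (s : ℝ) ≤ (Bs.b : ℝ) ^ ((1 / 48 : ℝ) * ℓ) := by
      refine hs.2.trans ?_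
      unfold Mb
      push_cast
      rw [bs_pow_cast]
      apply Real.rpow_le_rpow_of_exponent_le (by norm_num)
      refine (Nat.floor_le (by positivity)).trans ?_
      have : ε * ℓ ≤ 1 / 12 * ℓ := mul_le_mul_of_nonneg_right hε1 hℓ0.le
      linarith
    have h4 : (Bs.b : ℝ) ^ ((ℓ : ℝ) / 2) ≤ (H' : ℝ) * K / s := by
      rw [le_div_iff₀ hs0]
      have h5 : (Bs.b : ℝ) ^ ((ℓ : ℝ) - c) ≤ (H' : ℝ) * K := by
        rw [Real.rpow_sub (by norm_num), Real.rpow_natCast, Real.rpow_natCast, div_le_iff₀ (by positivity)]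
        linarith
      calc (Bs.b : ℝ) ^ ((ℓ : ℝ) / 2) * s ≤ (Bs.b : ℝ) ^ ((ℓ : ℝ) / 2) * (Bs.b : ℝ) ^ ((1 / 48 : ℝ) * ℓ) :=
            mul_le_mul_of_nonneg_left h2 (by positivity)
        _ = (Bs.b : ℝ) ^ ((ℓ : ℝ) / 2 + (1 / 48 : ℝ) * ℓ) := by rw [← Real.rpow_add (by norm_num)]
        _ ≤ (Bs.b : ℝ) ^ ((ℓ : ℝ) - c) := by
            apply Real.rpow_le_rpow_of_exponent_le (by norm_num)
            linarith
        _ ≤ (H' : ℝ) * K := h5
    have h6 := Real.log_le_log (by positivity) h4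
    rw [Real.log_rpow (by norm_num)] at h6
    have h7 := log_bs_gt_d9
    nlinarith
  have hVV : ∑ s ∈ SMz ℓ ((Mb ε ℓ : ℕ) : ℝ), (s : ℝ)⁻¹ ≤ CV * Real.log ℓ :=
    (sum_le_VV ℓ _ fun n hn => ((mem_SMz (by positivity)).1 hn).1).trans l1
  have hll : 0 ≤ Real.log ℓ := Real.log_natCast_nonneg ℓ
  refine ⟨⟨?_, ?_⟩, ?_⟩
  · unfold nu
    refine sum_nonneg fun s hs => ?_
    obtain ⟨g1, g2, _, _⟩ := hlog H hH s hs
    have : 0 ≤ Real.log ((H : ℝ) * K / s) := by linarith [show (0:ℝ) < (ℓ : ℝ) / 4 by positivity]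
    positivity
  · unfold nu
    calc ∑ s ∈ SMz ℓ ((Mb ε ℓ : ℕ) : ℝ), 1 / ((s : ℝ) * Real.log ((H : ℝ) * K / s)) ≤
          ∑ s ∈ SMz ℓ ((Mb ε ℓ : ℕ) : ℝ), (4 / (ℓ : ℝ)) * (s : ℝ)⁻¹ := by
          refine sum_le_sum fun s hs => ?_
          obtain ⟨g1, g2, _, _⟩ := hlog H hH s hs
          have e1 : (4 / (ℓ : ℝ)) * (s : ℝ)⁻¹ = 1 / (s * ((ℓ : ℝ) / 4)) := by field_simp
          rw [e1]
          apply one_div_le_one_div_of_le (by positivity)
          exact mul_le_mul_of_nonneg_left g2 g1.le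
      _ = (4 / (ℓ : ℝ)) * ∑ s ∈ SMz ℓ ((Mb ε ℓ : ℕ) : ℝ), (s : ℝ)⁻¹ := by rw [mul_sum]
      _ ≤ (4 / (ℓ : ℝ)) * (CV * Real.log ℓ) := mul_le_mul_of_nonneg_left hVV (by positivity)
      _ = 4 * CV * (Real.log ℓ / ℓ) := by ring
      _ ≤ 16 * CV * 5 * (Real.log ℓ / ℓ) := by
          apply mul_le_mul_of_nonneg_right _ (by positivity)
          nlinarith
  · intro H' hH' hHH hHH'
    unfold nu
    rw [← sum_sub_distrib]
    refine (abs_sum_le_sum_abs _ _).trans ?_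
    calc ∑ s ∈ SMz ℓ ((Mb ε ℓ : ℕ) : ℝ), |1 / ((s : ℝ) * Real.log ((H : ℝ) * K / s)) -
          1 / ((s : ℝ) * Real.log ((H' : ℝ) * K / s))| ≤
          ∑ s ∈ SMz ℓ ((Mb ε ℓ : ℕ) : ℝ), (16 * 5 / (ℓ : ℝ) ^ 2) * (s : ℝ)⁻¹ := by
          refine sum_le_sum fun s hs => ?_
          obtain ⟨g1, g2, g3, g4⟩ := hlog H hH s hs
          obtain ⟨_, f2, f3, _⟩ := hlog H' hH' s hs
          set a := Real.log ((H : ℝ) * K / s) with ha
          set b := Real.log ((H' : ℝ) * K / s) with hb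
          have hq : (0 : ℝ) < (ℓ : ℝ) / 4 := by positivity
          have ha0 : 0 < a := by linarith
          have hb0 : 0 < b := by linarith
          have hab : |b - a| ≤ 5 := by
            have e1 : b - a = Real.log (H' / H) := by
              rw [hb, ha, ← Real.log_div (by positivity) (by positivity)]
              congr 1
              field_simp
            have hl100 : Real.log 100 ≤ 5 := by
              rw [Real.log_le_iff_le_exp (by norm_num)]
              have h1 := Real.exp_one_gt_d9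
              have h2 : (2.7 : ℝ) ^ 5 ≤ Real.exp 1 ^ 5 := pow_le_pow_left₀ (by norm_num) (by linarith) 5
              rw [← Real.exp_nat_mul] at h2
              norm_num at h2
              linarith
            rw [e1, abs_le]
            constructor
            · have h1 : -Real.log 100 ≤ Real.log (H' / H) := by
                rw [← Real.log_inv]
                apply Real.log_le_log (by norm_num)
                rw [le_div_iff₀ g3]
                have : (H : ℝ) ≤ 100 * H' := by exact_mod_cast hHH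
                linarith
              linarith
            · have h1 : Real.log (H' / H) ≤ Real.log 100 := by
                apply Real.log_le_log (by positivity)
                rw [div_le_iff₀ g3]
                exact_mod_cast hHH'
              linarith
          have e2 : 1 / ((s : ℝ) * a) - 1 / ((s : ℝ) * b) = (b - a) / (s * (a * b)) := by
            field_simp
          rw [e2, abs_div, abs_of_pos (by positivity : (0 : ℝ) < s * (a * b))]
          have h3 : ((ℓ : ℝ) / 4) * (ℓ / 4) ≤ a * b := mul_le_mul g2 f2 hq.le ha0.le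
          calc |b - a| / (s * (a * b)) ≤ 5 / (s * (((ℓ : ℝ) / 4) * (ℓ / 4))) := by
                apply div_le_div₀ (by norm_num) hab (by positivity)
                exact mul_le_mul_of_nonneg_left h3 g1.le
            _ = _ := by field_simp; ring
      _ = (16 * 5 / (ℓ : ℝ) ^ 2) * ∑ s ∈ SMz ℓ ((Mb ε ℓ : ℕ) : ℝ), (s : ℝ)⁻¹ := by rw [mul_sum]
      _ ≤ (16 * 5 / (ℓ : ℝ) ^ 2) * (CV * Real.log ℓ) := mul_le_mul_of_nonneg_left hVV (by positivity)
      _ = _ := by ring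

end Pool.Agent.H176B
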