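import Mathlib
import Pool.Agent.H176M.Wnd
import Pool.Agent.H176B.Itv

set_option autoImplicit false

/-!
# The conditional means on a window
-/

namespace Pool.Agent.H176B

open Pool.Agent.H176M

open Finset Filter MeasureTheory
open Pool.Agent.H305R2 (roughPart SM SMz SM_pos mem_SMz VV sum_le_VV NN ff FF FF_sub FF_mono FF_sub_le LL LL_eq
  LL_nonneg LL_le_one ff_nonneg ff_le_one measurable_ff integrableOn_ff mem_Ioc_log)

variable [Bs]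

/-- the deviation on the cell of a prefix -/
noncomputable def DH (ε : ℝ) (ℓ H : ℕ) : ℝ :=
  |(FF ℓ (Real.log (((H + 1) * Bs.b ^ (ℓ - rr ε ℓ) : ℕ) : ℝ)) - FF ℓ (Real.log ((H * Bs.b ^ (ℓ - rr ε ℓ) : ℕ) : ℝ))) -
    (Real.log ((H + 1 : ℕ) : ℝ) - Real.log H) * nu ℓ (Mb ε ℓ) (Bs.b ^ (ℓ - rr ε ℓ)) H|

theorem window (hS : SilS) (ε : ℝ) (hε : 0 < ε) (hε1 : ε ≤ 1 / 12) (b0 : ℝ) (A : ℕ) :
    ∃ C : ℝ, 0 < C ∧ ∃ L₀ : ℕ, ∀ ℓ : ℕ, L₀ ≤ ℓ → ∀ ha hb : ℕ,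
    ha = NN (b0 - 1 / 2 + rr ε ℓ * Real.log Bs.b) → hb = NN (b0 + 5 / 2 + rr ε ℓ * Real.log Bs.b) + 1 →
    (1 ≤ ha ∧ ha ≤ hb ∧ hb ≤ 50 * ha ∧ 1 / (ha : ℝ) ≤ 1 / (ℓ : ℝ) ^ (A + 1)) ∧
    ∑ H ∈ Ico ha hb, DH ε ℓ H ≤ 1 / (ℓ : ℝ) ^ A ∧
    ∀ H ∈ Ico ha hb, (0 ≤ nu ℓ (Mb ε ℓ) (Bs.b ^ (ℓ - rr ε ℓ)) H ∧ nu ℓ (Mb ε ℓ) (Bs.b ^ (ℓ - rr ε ℓ)) H ≤ 1) ∧
      ∀ H' ∈ Ico ha hb, |nu ℓ (Mb ε ℓ) (Bs.b ^ (ℓ - rr ε ℓ)) H - nu ℓ (Mb ε ℓ) (Bs.b ^ (ℓ - rr ε ℓ)) H'| ≤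
        C * (Real.log ℓ / (ℓ : ℝ) ^ 2) := by
  have hbs0 := bs_pos
  obtain ⟨c, hc⟩ : ∃ c : ℕ, 50 * Real.exp (|b0| + 4) ≤ Bs.b ^ c := by
    obtain ⟨n, hn⟩ := pow_unbounded_of_one_lt (50 * Real.exp (|b0| + 4)) one_lt_bsr
    exact ⟨n, hn.le⟩
  obtain ⟨L1, h1⟩ := rough_aligned hS ε hε hε1 c (A + 1)
  obtain ⟨C, hC, L2, h2⟩ := nu_bounds ε hε hε1 (c + 6)
  have hexp : ∀ (n : ℕ) (C : ℝ), 0 < C → ∀ᶠ ℓ : ℕ in atTop,
      C * (ℓ : ℝ) ^ n ≤ (Bs.b : ℝ) ^ ((1 / 2 : ℝ) * ℓ) := by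
    intro n C hC
    have h1 := (isLittleO_pow_exp_pos_mul_atTop n (b := 1 / 2 * Real.log Bs.b)
      (by have := log_bs_pos; positivity)).bound (show (0 : ℝ) < 1 / C by positivity)
    have h2 := tendsto_natCast_atTop_atTop (R := ℝ) |>.eventually h1
    filter_upwards [h2] with ℓ hℓ
    rw [Real.norm_of_nonneg (by positivity), Real.norm_of_nonneg (by positivity), one_div,
      inv_mul_eq_div, le_div_iff₀ hC] at hℓ
    have e1 : (Bs.b : ℝ) ^ ((1 / 2 : ℝ) * ℓ) = Real.exp (1 / 2 * Real.log Bs.b * ℓ) := by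
      rw [Real.rpow_def_of_pos (by norm_num)]
      congr 1
      ring
    rw [e1]
    linarith
  have hlog1 : ∀ᶠ ℓ : ℕ in atTop, C * (Real.log ℓ / ℓ) ≤ 1 := by
    have h := (Real.isLittleO_log_id_atTop).bound (show (0 : ℝ) < 1 / C by positivity)
    have h' := tendsto_natCast_atTop_atTop (R := ℝ) |>.eventually h
    filter_upwards [h', eventually_ge_atTop 1] with ℓ hℓ hℓ1
    have hℓ0 : (0 : ℝ) < ℓ := by exact_mod_cast hℓ1
    simp only [id] at hℓ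
    rw [Real.norm_of_nonneg (Real.log_natCast_nonneg ℓ), Real.norm_of_nonneg hℓ0.le] at hℓ
    rw [← mul_div_assoc, div_le_one hℓ0]
    have := mul_le_mul_of_nonneg_left hℓ hC.le
    rwa [← mul_assoc, mul_one_div_cancel hC.ne', one_mul] at this
  set E0 := Real.exp (b0 - 1 / 2) with hE0
  have hE00 : 0 < E0 := Real.exp_pos _
  obtain ⟨L3, h3⟩ := eventually_atTop.1 ((rr_facts ε hε hε1).and ((hexp (A + 2) (200 / E0) (by positivity)).and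
    (hlog1.and (tendsto_natCast_atTop_atTop.eventually_ge_atTop (50 * (Bs.b : ℝ) ^ c + 100)))))
  refine ⟨C, hC, L1 + L2 + L3 + 1, fun ℓ hℓ ha hb hha hhb => ?_⟩
  obtain ⟨⟨r1, r2, r3⟩, l4, l5, l6⟩ := h3 ℓ (by omega)
  set r := rr ε ℓ with hr
  set K := Bs.b ^ (ℓ - r) with hK
  set M := Mb ε ℓ with hM
  have hc0 : (0 : ℝ) < Bs.b ^ c := by positivity
  have hℓ1 : (100 : ℝ) ≤ ℓ := by linarith
  have hℓ0 : (0 : ℝ) < ℓ := by linarith
  have hK1 : 1 ≤ K := one_le_bs_pow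
  have hK0 : (0 : ℝ) < K := by exact_mod_cast hK1
  -- sizes
  have hexpr : ∀ x : ℝ, Real.exp (x + r * Real.log Bs.b) = Real.exp x * Bs.b ^ r := by
    intro x
    rw [Real.exp_add, mul_comm (r : ℝ), Real.exp_mul, Real.exp_log (by norm_num), Real.rpow_natCast]
  obtain ⟨a1, a2⟩ := NN_bounds' (b0 - 1 / 2 + r * Real.log Bs.b)
  obtain ⟨b1, b2⟩ := NN_bounds' (b0 + 5 / 2 + r * Real.log Bs.b)
  rw [← hha, hexpr] at a1 a2
  rw [hexpr] at b1 b2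
  have hhbr : (hb : ℝ) = NN (b0 + 5 / 2 + r * Real.log Bs.b) + 1 := by rw [hhb]; push_cast; rfl
  have h2r : (Bs.b : ℝ) ^ ((1 / 2 : ℝ) * ℓ) ≤ Bs.b ^ r := by
    rw [bs_pow_cast r]
    apply Real.rpow_le_rpow_of_exponent_le (by norm_num)
    linarith
  have hl1 : (1 : ℝ) ≤ (ℓ : ℝ) ^ (A + 2) := one_le_pow₀ (by linarith)
  have hbig : 200 * (ℓ : ℝ) ^ (A + 2) ≤ E0 * Bs.b ^ r := by
    have h5 := l4.trans h2r
    have h6 := mul_le_mul_of_nonneg_left h5 hE00.le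
    have h7 : E0 * (200 / E0 * (ℓ : ℝ) ^ (A + 2)) = 200 * (ℓ : ℝ) ^ (A + 2) := by field_simp
    linarith
  have haw : E0 * Bs.b ^ r / 2 ≤ ha := by linarith
  have ha100 : (100 : ℝ) * (ℓ : ℝ) ^ (A + 2) ≤ ha := by linarith
  have ha1 : 1 ≤ ha := by
    have : (1 : ℝ) ≤ ha := by linarith
    exact_mod_cast this
  have ha0 : (0 : ℝ) < ha := by exact_mod_cast ha1
  have hab : ha ≤ hb := by
    rw [hha, hhb]
    have := NN_mono (show b0 - 1 / 2 + r * Real.log Bs.b ≤ b0 + 5 / 2 + r * Real.log Bs.b by linarith)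
    omega
  have he3 : Real.exp (b0 + 5 / 2) ≤ 21 * E0 := by
    have e1 : Real.exp (b0 + 5 / 2) = Real.exp 3 * E0 := by rw [hE0, ← Real.exp_add]; ring_nf
    have e2 : Real.exp 3 ≤ 21 := by
      have e3 : Real.exp 3 = Real.exp 1 ^ 3 := by rw [← Real.exp_nat_mul]; norm_num
      rw [e3]
      have e4 := Real.exp_one_lt_d9
      calc Real.exp 1 ^ 3 ≤ (2.7182818286 : ℝ) ^ 3 := pow_le_pow_left₀ (Real.exp_pos 1).le e4.le 3
        _ ≤ 21 := by norm_num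
    rw [e1]
    exact mul_le_mul_of_nonneg_right e2 hE00.le
  have h2r0 : (0 : ℝ) < Bs.b ^ r := by positivity
  have hb50 : hb ≤ 50 * ha := by
    have h5 : (hb : ℝ) ≤ 50 * ha := by
      have h6 := mul_le_mul_of_nonneg_right he3 h2r0.le
      linarith
    exact_mod_cast h5
  have hbc1 : Bs.b ^ r ≤ Bs.b ^ c * hb := by
    have h5 : ((Bs.b : ℝ) ^ r) ≤ Bs.b ^ c * hb := by
      have h6 : Real.exp (b0 + 5 / 2) * Bs.b ^ r ≤ hb := by rw [hhbr]; exact b2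
      have h7 : 1 ≤ Bs.b ^ c * Real.exp (b0 + 5 / 2) := by
        have h8 : Real.exp (|b0| + 4) ≤ Bs.b ^ c := by
          have := Real.exp_pos (|b0| + 4)
          linarith
        calc (1 : ℝ) ≤ Real.exp (|b0| + 4 + (b0 + 5 / 2)) := by
              apply Real.one_le_exp
              have := neg_abs_le b0
              linarith
          _ = Real.exp (|b0| + 4) * Real.exp (b0 + 5 / 2) := Real.exp_add _ _
          _ ≤ Bs.b ^ c * Real.exp (b0 + 5 / 2) := mul_le_mul_of_nonneg_right h8 (Real.exp_pos _).le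
      calc (Bs.b : ℝ) ^ r = 1 * Bs.b ^ r := (one_mul _).symm
        _ ≤ (Bs.b ^ c * Real.exp (b0 + 5 / 2)) * Bs.b ^ r := mul_le_mul_of_nonneg_right h7 h2r0.le
        _ = Bs.b ^ c * (Real.exp (b0 + 5 / 2) * Bs.b ^ r) := by ring
        _ ≤ Bs.b ^ c * hb := mul_le_mul_of_nonneg_left h6 hc0.le
    exact_mod_cast h5
  have hbc2 : hb ≤ Bs.b ^ (r + c) := by
    have h5 : (hb : ℝ) ≤ Bs.b ^ (r + c) := by
      have h6 : Real.exp (b0 + 5 / 2) ≤ Real.exp (|b0| + 4) := by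
        apply Real.exp_le_exp.2
        have := le_abs_self b0
        linarith
      have h7 : (1 : ℝ) ≤ Real.exp (|b0| + 4) := Real.one_le_exp (by positivity)
      have h8 : (1 : ℝ) ≤ Bs.b ^ r := one_le_pow₀ (by norm_num)
      have h9 := mul_le_mul_of_nonneg_right h6 h2r0.le
      have h10 : (hb : ℝ) ≤ Real.exp (|b0| + 4) * Bs.b ^ r + 1 := by linarith
      have h11 : (1 : ℝ) ≤ Real.exp (|b0| + 4) * Bs.b ^ r := by nlinarith
      rw [pow_add]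
      have h12 := mul_le_mul_of_nonneg_right hc h2r0.le
      linarith
    exact_mod_cast h5
  -- the prefixes
  have hpre : ∀ H ∈ Ico ha hb, Bs.b ^ ℓ ≤ Bs.b ^ (c + 6) * (H * K) ∧ 1 ≤ H := by
    intro H hH
    rw [mem_Ico] at hH
    refine ⟨?_, by omega⟩
    calc Bs.b ^ ℓ = Bs.b ^ r * K := by rw [hK, ← pow_add]; congr 1; omega
      _ ≤ (Bs.b ^ c * hb) * K := Nat.mul_le_mul_right _ hbc1
      _ ≤ (Bs.b ^ c * (50 * ha)) * K := Nat.mul_le_mul_right _ (Nat.mul_le_mul_left _ hb50)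
      _ ≤ (Bs.b ^ c * (Bs.b ^ 6 * H)) * K := by
          apply Nat.mul_le_mul_right
          apply Nat.mul_le_mul_left
          calc 50 * ha ≤ 64 * H := Nat.mul_le_mul (by norm_num) hH.1
            _ ≤ Bs.b ^ 6 * H := Nat.mul_le_mul_right _ (by
                calc 64 = 2 ^ 6 := by norm_num
                  _ ≤ Bs.b ^ 6 := Nat.pow_le_pow_left two_le_bs 6)
      _ = Bs.b ^ (c + 6) * (H * K) := by rw [pow_add]; ring
  have hnu : ∀ H ∈ Ico ha hb, (0 ≤ nu ℓ M K H ∧ nu ℓ M K H ≤ 1) ∧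
      ∀ H' ∈ Ico ha hb, |nu ℓ M K H - nu ℓ M K H'| ≤ C * (Real.log ℓ / (ℓ : ℝ) ^ 2) := by
    intro H hH
    obtain ⟨p1, _⟩ := hpre H hH
    obtain ⟨⟨q1, q2⟩, q3⟩ := h2 ℓ (by omega) K H p1
    refine ⟨⟨q1, q2.trans l5⟩, fun H' hH' => ?_⟩
    obtain ⟨p1', _⟩ := hpre H' hH'
    rw [mem_Ico] at hH hH'
    exact q3 H' p1' (by omega) (by omega)
  refine ⟨⟨ha1, hab, hb50, ?_⟩, ?_, hnu⟩
  · apply one_div_le_one_div_of_le (by positivity)
    have h5 : (ℓ : ℝ) ^ (A + 1) ≤ (ℓ : ℝ) ^ (A + 2) := pow_le_pow_right₀ (by linarith) (by omega)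
    linarith
  · have hRA := h1 ℓ (by omega) r r1 r2 r3 hb ha hb hbc1 hbc2 hab le_rfl hb50
    have hterm : ∀ H ∈ Ico ha hb, DH ε ℓ H ≤ 2 / (ha : ℝ) ^ 2 +
        (1 / ((ha : ℝ) * K)) * |(RC ℓ (Bs.b ^ (ℓ - r)) H : ℝ) - Bs.b ^ (ℓ - r) * nu ℓ (Mb ε ℓ) (Bs.b ^ (ℓ - r)) H| := by
      intro H hH
      obtain ⟨_, p2⟩ := hpre H hH
      obtain ⟨⟨q1, q2⟩, _⟩ := hnu H hH
      rw [mem_Ico] at hH
      have hH0 : (0 : ℝ) < H := by exact_mod_cast p2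
      have haH : (ha : ℝ) ≤ H := by exact_mod_cast hH.1
      have g1 := prefix_cell (ℓ := ℓ) (K := K) (H := H) p2 hK1
      have g2 : |1 / (H : ℝ) - (Real.log ((H + 1 : ℕ) : ℝ) - Real.log H)| ≤ 1 / (H : ℝ) ^ 2 := by
        rw [← Real.log_div (by positivity) hH0.ne']
        have g3 : Real.log (((H + 1 : ℕ) : ℝ) / H) ≤ 1 / H := by
          refine (Real.log_le_sub_one_of_pos (by positivity)).trans (le_of_eq ?_)
          push_cast; field_simp; ring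
        have g4 : 1 / ((H : ℝ) + 1) ≤ Real.log (((H + 1 : ℕ) : ℝ) / H) := by
          refine le_trans (le_of_eq ?_) (Real.one_sub_inv_le_log_of_pos (by positivity))
          push_cast; field_simp; ring
        rw [abs_of_nonneg (by linarith)]
        have g5 : 1 / (H : ℝ) - 1 / ((H : ℝ) + 1) ≤ 1 / (H : ℝ) ^ 2 := by
          rw [div_sub_div _ _ hH0.ne' (by positivity), div_le_div_iff₀ (by positivity) (by positivity)]
          nlinarith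
        linarith
      have hKc : ((K : ℕ) : ℝ) = Bs.b ^ (ℓ - r) := by rw [hK]; push_cast; rfl
      have g6 : (RC ℓ K H : ℝ) / (H * K) - (Real.log ((H + 1 : ℕ) : ℝ) - Real.log H) * nu ℓ M K H =
          (1 / ((H : ℝ) * K)) * ((RC ℓ K H : ℝ) - Bs.b ^ (ℓ - r) * nu ℓ M K H) +
          (1 / (H : ℝ) - (Real.log ((H + 1 : ℕ) : ℝ) - Real.log H)) * nu ℓ M K H := by
        rw [← hKc]
        field_simp
        ring
      have g7 : |(RC ℓ K H : ℝ) / (H * K) - (Real.log ((H + 1 : ℕ) : ℝ) - Real.log H) * nu ℓ M K H| ≤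
          (1 / ((ha : ℝ) * K)) * |(RC ℓ K H : ℝ) - Bs.b ^ (ℓ - r) * nu ℓ M K H| + 1 / (H : ℝ) ^ 2 := by
        rw [g6]
        refine (abs_add_le _ _).trans (add_le_add ?_ ?_)
        · rw [abs_mul, abs_of_pos (by positivity : 0 < 1 / ((H : ℝ) * K))]
          apply mul_le_mul_of_nonneg_right _ (abs_nonneg _)
          apply one_div_le_one_div_of_le (by positivity)
          exact mul_le_mul_of_nonneg_right haH hK0.le
        · rw [abs_mul, abs_of_nonneg q1]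
          calc _ ≤ 1 / (H : ℝ) ^ 2 * 1 := mul_le_mul g2 q2 q1 (by positivity)
            _ = _ := mul_one _
      have g8 : 1 / (H : ℝ) ^ 2 ≤ 1 / (ha : ℝ) ^ 2 := by
        apply one_div_le_one_div_of_le (by positivity)
        exact pow_le_pow_left₀ ha0.le haH 2
      have g9 : DH ε ℓ H ≤ 1 / (H : ℝ) ^ 2 +
          |(RC ℓ K H : ℝ) / (H * K) - (Real.log ((H + 1 : ℕ) : ℝ) - Real.log H) * nu ℓ M K H| := by
        unfold DH
        refine le_trans (abs_sub_le _ ((RC ℓ K H : ℝ) / (H * K)) _) ?_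
        exact add_le_add g1 le_rfl
      have g10 : 2 / (ha : ℝ) ^ 2 = 1 / (ha : ℝ) ^ 2 + 1 / (ha : ℝ) ^ 2 := by ring
      rw [g10]
      linarith
    refine (sum_le_sum hterm).trans ?_
    rw [sum_add_distrib, ← mul_sum, sum_const, nsmul_eq_mul, Nat.card_Ico]
    have s1 : ((hb - ha : ℕ) : ℝ) * (2 / (ha : ℝ) ^ 2) ≤ 1 / (ℓ : ℝ) ^ (A + 1) := by
      have g1 : ((hb - ha : ℕ) : ℝ) ≤ 50 * ha := by exact_mod_cast (by omega : hb - ha ≤ 50 * ha)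
      calc ((hb - ha : ℕ) : ℝ) * (2 / (ha : ℝ) ^ 2) ≤ (50 * ha) * (2 / (ha : ℝ) ^ 2) :=
            mul_le_mul_of_nonneg_right g1 (by positivity)
        _ = 100 / ha := by field_simp; ring
        _ ≤ 100 / (100 * (ℓ : ℝ) ^ (A + 2)) := div_le_div_of_nonneg_left (by norm_num) (by positivity) ha100
        _ = 1 / (ℓ : ℝ) ^ (A + 2) := by field_simp
        _ ≤ 1 / (ℓ : ℝ) ^ (A + 1) := by
            apply one_div_le_one_div_of_le (by positivity)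
            exact pow_le_pow_right₀ (by linarith) (by omega)
    have s2 : (1 / ((ha : ℝ) * K)) * ∑ H ∈ Ico ha hb, |(RC ℓ (Bs.b ^ (ℓ - r)) H : ℝ) -
        Bs.b ^ (ℓ - r) * nu ℓ (Mb ε ℓ) (Bs.b ^ (ℓ - r)) H| ≤ 50 * Bs.b ^ c / (ℓ : ℝ) ^ (A + 1) := by
      refine (mul_le_mul_of_nonneg_left hRA (by positivity)).trans ?_
      have g1 : (Bs.b : ℝ) ^ ℓ ≤ 50 * Bs.b ^ c * (ha * K) := by
        have g2 : Bs.b ^ ℓ ≤ 50 * Bs.b ^ c * (ha * K) := by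
          calc Bs.b ^ ℓ = Bs.b ^ r * K := by rw [hK, ← pow_add]; congr 1; omega
            _ ≤ (Bs.b ^ c * hb) * K := Nat.mul_le_mul_right _ hbc1
            _ ≤ (Bs.b ^ c * (50 * ha)) * K := Nat.mul_le_mul_right _ (Nat.mul_le_mul_left _ hb50)
            _ = _ := by ring
        exact_mod_cast g2
      calc (1 / ((ha : ℝ) * K)) * (Bs.b ^ ℓ / (ℓ : ℝ) ^ (A + 1)) ≤
            (1 / ((ha : ℝ) * K)) * ((50 * Bs.b ^ c * (ha * K)) / (ℓ : ℝ) ^ (A + 1)) := by gcongr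
        _ = _ := by field_simp
    have s3 : 1 / (ℓ : ℝ) ^ (A + 1) + 50 * Bs.b ^ c / (ℓ : ℝ) ^ (A + 1) ≤ 1 / (ℓ : ℝ) ^ A := by
      rw [← add_div, pow_succ, div_le_div_iff₀ (by positivity) (by positivity)]
      have : (0 : ℝ) < (ℓ : ℝ) ^ A := by positivity
      nlinarith
    linarith

end Pool.Agent.H176B
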