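import Mathlib
import Pool.Agent.H176M.Law
import Pool.Agent.H176B.Far
import Pool.Agent.TH888.R.Asy

set_option autoImplicit false

/-!
# The law for every set of primes of divergent weight
-/

namespace Pool.Agent.H176B

open Pool.Agent.H176M

open Finset Filter Topology MeasureTheory Asymptotics
open Pool.Agent.H305R2 (roughPart ff LL log_nat_tendsto)
open Pool.Agent.TH888.R (wt wt_nonneg wt_le_one gr gr_le gr_mono one_le_gr sqrt_le_gr Sys VS FS VS_nonneg
  VS_mono div_tail blocks inv_sum_le cS VS_univ_bound VS_univ_tendsto loglog_tendsto)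
open Pool.Agent.W66S (moment_rows)

variable [Bs]

/-- the system in base `b` -/
theorem sys1_bs (hS : SilS) (b0 : ℝ) : Sys1 (volume.restrict (Set.Ioc b0 (b0 + 1)))
    (fun p t => ff p (t + p * Real.log Bs.b)) (fun p t => LL p (t + p * Real.log Bs.b))
    (fun _ => Real.exp Real.eulerMascheroniConstant / Real.log Bs.b) :=
  ⟨sys_bs b0, rows hS b0⟩

/-- **The integers `⌈β b ^ p⌉ - 1`, for every set of primes of divergent weight.** -/
theorem law_bs (hS : SilS) (S : Set ℕ) (hdiv : Tendsto (VS S) atTop atTop) : ∀ᵐ β : ℝ, 0 < β →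
    ∃ B : ℝ, 0 ≤ B ∧ ∀ n : ℕ, |(cS S (fun p => ⌈β * Bs.b ^ p⌉₊ - 1) n : ℝ) -
      Real.exp Real.eulerMascheroniConstant / Real.log Bs.b * VS S n| ≤ B * gr (VS S n) := by
  have hbs0 := bs_pos
  refine Pool.Agent.W66X.ae_of_exp' (P := fun β : ℝ => ∃ B : ℝ, 0 ≤ B ∧ ∀ n : ℕ,
    |(cS S (fun p => ⌈β * Bs.b ^ p⌉₊ - 1) n : ℝ) -
      Real.exp Real.eulerMascheroniConstant / Real.log Bs.b * VS S n| ≤ B * gr (VS S n))
    (Pool.Agent.TH888.R.ae_windows fun b0 => ?_)
  refine (sys1_bs hS b0).pt (s := fun t p => ⌈Real.exp t * Bs.b ^ p⌉₊ - 1)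
    (Eventually.of_forall fun t => ⟨0, fun p _ _ => ?_⟩) S hdiv
  show (if (roughPart p (Pool.Agent.H305R2.NN (t + p * Real.log Bs.b))).Prime then (1 : ℝ) else 0) = _
  unfold Pool.Agent.H305R2.NN
  rw [exp_add_bs]

end Pool.Agent.H176B
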