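import Mathlib
import Pool.Agent.H176M.Pal
import Pool.Agent.H176B.Ast

set_option autoImplicit false

/-!
# Correlation functions for almost every amplitude
-/

namespace Pool.Agent.H176B

open Pool.Agent.H176M

open Finset Filter Topology MeasureTheory
open Pool.Agent.H305R2 (NN ff ff_nonneg ff_le_one)

variable [Bs]

/-- squeezing between block sums -/
lemma squeeze_blocks {S : ℕ → ℝ} {Λ : ℝ} (h : ∀ ε : ℝ, 0 < ε → ∃ R : ℝ, 1 < R ∧ ∃ (x y : ℕ → ℝ) (Λ1 Λ2 : ℝ),
      Tendsto (fun J : ℕ => (∑ j ∈ range J, x j) / J) atTop (𝓝 (Λ1 * Real.log R)) ∧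
      Tendsto (fun J : ℕ => (∑ j ∈ range J, y j) / J) atTop (𝓝 (Λ2 * Real.log R)) ∧
      Λ1 ≤ Λ + ε ∧ Λ - ε ≤ Λ2 ∧
      (∀ n J : ℕ, 1 ≤ n → (n : ℝ) ≤ R ^ J → S n ≤ ∑ j ∈ range J, x j) ∧
      (∀ n J : ℕ, 1 ≤ n → R ^ J ≤ n → ∑ j ∈ range J, y j ≤ S n)) :
    Tendsto (fun n : ℕ => S n / Real.log n) atTop (𝓝 Λ) := by
  have hbs0 := bs_pos
  rw [Metric.tendsto_atTop]
  intro ε hε
  obtain ⟨R, hR, x, y, Λ1, Λ2, hx, hy, h1, h2, hS1, hS2⟩ := h (ε / 2) (by linarith)
  have hlR : 0 < Real.log R := Real.log_pos hR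
  have hlog : Tendsto (fun n : ℕ => Real.log n) atTop atTop := Pool.Agent.H305R2.log_nat_tendsto
  have hq : Tendsto (fun n : ℕ => Real.log n / Real.log R) atTop atTop := hlog.atTop_div_const hlR
  have hup : Tendsto (fun n : ℕ => ⌈Real.log n / Real.log R⌉₊) atTop atTop := tendsto_nat_ceil_atTop.comp hq
  have hdn : Tendsto (fun n : ℕ => ⌊Real.log n / Real.log R⌋₊) atTop atTop := tendsto_nat_floor_atTop.comp hq
  have r1 : Tendsto (fun n : ℕ => (⌈Real.log n / Real.log R⌉₊ : ℝ) / (Real.log n / Real.log R)) atTop (𝓝 1) :=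
    (tendsto_nat_ceil_div_atTop (R := ℝ)).comp hq
  have r2 : Tendsto (fun n : ℕ => (⌊Real.log n / Real.log R⌋₊ : ℝ) / (Real.log n / Real.log R)) atTop (𝓝 1) :=
    (tendsto_nat_floor_div_atTop (R := ℝ)).comp hq
  have t1 := ((hx.comp hup).mul r1).div_const (Real.log R)
  have t2 := ((hy.comp hdn).mul r2).div_const (Real.log R)
  have e1 : Λ1 * Real.log R * 1 / Real.log R = Λ1 := by field_simp
  have e2 : Λ2 * Real.log R * 1 / Real.log R = Λ2 := by field_simp
  rw [e1] at t1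
  rw [e2] at t2
  have k1 := t1.eventually_lt_const (show Λ1 < Λ + ε by linarith)
  have k2 := t2.eventually_const_lt (show Λ - ε < Λ2 by linarith)
  rw [← eventually_atTop]
  filter_upwards [k1, k2, hlog.eventually_gt_atTop 0, hdn.eventually_ge_atTop 1, hup.eventually_ge_atTop 1,
    eventually_ge_atTop 1] with n a1 a2 a3 a4 a5 a6
  have hn0 : (0 : ℝ) < n := by exact_mod_cast a6
  set U := ⌈Real.log n / Real.log R⌉₊ with hU
  set D := ⌊Real.log n / Real.log R⌋₊ with hD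
  have hU0 : (0 : ℝ) < U := by exact_mod_cast a5
  have hD0 : (0 : ℝ) < D := by exact_mod_cast a4
  have b1 : (n : ℝ) ≤ R ^ U := by
    have h3 : Real.log n / Real.log R ≤ U := Nat.le_ceil _
    rw [div_le_iff₀ hlR] at h3
    rw [← Real.log_le_log_iff hn0 (by positivity), Real.log_pow]
    exact h3
  have b2 : R ^ D ≤ (n : ℝ) := by
    have h3 : (D : ℝ) ≤ Real.log n / Real.log R := Nat.floor_le (by positivity)
    rw [le_div_iff₀ hlR] at h3
    rw [← Real.log_le_log_iff (by positivity) hn0, Real.log_pow]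
    exact h3
  have c1 := hS1 n U a6 b1
  have c2 := hS2 n D a6 b2
  simp only [Function.comp_apply] at a1 a2
  have d1 : (∑ j ∈ range U, x j) / (U : ℝ) * ((U : ℝ) / (Real.log n / Real.log R)) / Real.log R =
      (∑ j ∈ range U, x j) / Real.log n := by
    field_simp
  have d2 : (∑ j ∈ range D, y j) / (D : ℝ) * ((D : ℝ) / (Real.log n / Real.log R)) / Real.log R =
      (∑ j ∈ range D, y j) / Real.log n := by
    field_simp
  rw [← hU] at a1
  rw [← hD] at a2
  rw [d1] at a1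
  rw [d2] at a2
  have f1 : S n / Real.log n ≤ (∑ j ∈ range U, x j) / Real.log n := div_le_div_of_nonneg_right c1 a3.le
  have f2 : (∑ j ∈ range D, y j) / Real.log n ≤ S n / Real.log n := div_le_div_of_nonneg_right c2 a3.le
  rw [Real.dist_eq, abs_lt]
  constructor <;> linarith

lemma cT_mono {T T' : Finset ℕ} (h : T ⊆ T') (u : ℝ) : cT T u ≤ cT T' u :=
  sum_le_sum_of_subset_of_nonneg h fun p _ _ => ff_nonneg p _

/-- the correlation sum -/
noncomputable def CS (a b : ℕ → ℝ) (k n : ℕ) (u : ℝ) : ℝ :=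
  ∑ p ∈ Pr 0 n, ff p (u + p * Real.log Bs.b) * ∏ i ∈ range k, cT (Pr (a i * p) (b i * p)) u

lemma XX_sh (R : ℝ) (a b : ℕ → ℝ) (k j : ℕ) (u : ℝ) :
    XX (sh 1 a) (sh R b) R (k + 1) j u =
      ∑ p ∈ Pr (R ^ j) (R ^ (j + 1)), ff p (u + p * Real.log Bs.b) * ∏ i ∈ range k, cT (Pr (a i * R ^ j) (b i * R ^ j)) u := by
  have hbs0 := bs_pos
  unfold XX
  rw [prod_range_succ', ← sum_mul, mul_comm]
  simp only [sh_zero, sh_succ]
  rw [one_mul, pow_succ']
  rfl

lemma CS_upper {R : ℝ} (hR : 1 < R) {a b a' b' : ℕ → ℝ} {k : ℕ} (ha : ∀ i < k, 0 < a' i ∧ a' i ≤ a i)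
    (hb : ∀ i < k, 0 < b i ∧ b i * R ≤ b' i) (u : ℝ) {n J : ℕ} (hJ : (n : ℝ) ≤ R ^ J) :
    CS a b k n u ≤ ∑ j ∈ range J, XX (sh 1 a') (sh R b') R (k + 1) j u := by
  have hbs0 := bs_pos
  have hR0 : 0 < R := by linarith
  have h0 : ∀ (p : ℕ), 0 ≤ ff p (u + p * Real.log Bs.b) * ∏ i ∈ range k, cT (Pr (a i * p) (b i * p)) u := fun p =>
    mul_nonneg (ff_nonneg _ _) (prod_nonneg fun i _ => cT_nonneg _ _)
  unfold CS
  calc ∑ p ∈ Pr 0 n, ff p (u + p * Real.log Bs.b) * ∏ i ∈ range k, cT (Pr (a i * p) (b i * p)) u ≤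
        ∑ p ∈ (range J).biUnion (fun j => Pr (R ^ j) (R ^ (j + 1))),
          ff p (u + p * Real.log Bs.b) * ∏ i ∈ range k, cT (Pr (a i * p) (b i * p)) u := by
        refine sum_le_sum_of_subset_of_nonneg (fun p hp => ?_) fun p _ _ => h0 p
        rw [mem_Pr le_rfl (Nat.cast_nonneg n)] at hp
        obtain ⟨hp1, _, hp3⟩ := hp
        obtain ⟨j, hj, h1, h2⟩ := exists_block hR (show (1 : ℝ) < p by exact_mod_cast hp1.one_lt) (hp3.trans hJ)
        rw [mem_biUnion]
        refine ⟨j, mem_range.2 hj, ?_⟩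
        rw [mem_Pr (by positivity) (by positivity)]
        exact ⟨hp1, h1, h2⟩
    _ ≤ ∑ j ∈ range J, ∑ p ∈ Pr (R ^ j) (R ^ (j + 1)),
          ff p (u + p * Real.log Bs.b) * ∏ i ∈ range k, cT (Pr (a i * p) (b i * p)) u := by
        classical
        have : ∀ (s : Finset ℕ) (t : ℕ → Finset ℕ) (f : ℕ → ℝ), (∀ p, 0 ≤ f p) →
            ∑ p ∈ s.biUnion t, f p ≤ ∑ j ∈ s, ∑ p ∈ t j, f p := by
          intro s t f hf
          induction s using Finset.induction_on with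
          | empty => simp
          | insert x s hx ih =>
            rw [biUnion_insert, sum_insert hx]
            have h3 := sum_union_inter (s₁ := t x) (s₂ := s.biUnion t) (f := f)
            have h4 : 0 ≤ ∑ p ∈ t x ∩ s.biUnion t, f p := sum_nonneg fun p _ => hf p
            linarith
        exact this _ _ _ h0
    _ ≤ _ := by
        refine sum_le_sum fun j _ => ?_
        rw [XX_sh]
        refine sum_le_sum fun p hp => ?_
        rw [mem_Pr (by positivity) (by positivity)] at hp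
        obtain ⟨_, h1, h2⟩ := hp
        refine mul_le_mul_of_nonneg_left ?_ (ff_nonneg _ _)
        refine prod_le_prod (fun i _ => cT_nonneg _ _) fun i hi => ?_
        obtain ⟨ha1, ha2⟩ := ha i (mem_range.1 hi)
        obtain ⟨hb1, hb2⟩ := hb i (mem_range.1 hi)
        have hRj : 0 < R ^ j := by positivity
        refine cT_mono (Pr_mono ?_ ?_) u
        · exact mul_le_mul ha2 h1.le hRj.le (by linarith)
        · calc b i * (p : ℝ) ≤ b i * R ^ (j + 1) := mul_le_mul_of_nonneg_left h2 hb1.le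
            _ = b i * R * R ^ j := by rw [pow_succ]; ring
            _ ≤ b' i * R ^ j := mul_le_mul_of_nonneg_right hb2 hRj.le

lemma CS_lower {R : ℝ} (hR : 1 < R) {a b a' b' : ℕ → ℝ} {k : ℕ} (ha : ∀ i < k, 0 < a i ∧ a i * R ≤ a' i)
    (hb : ∀ i < k, 0 < b' i ∧ b' i ≤ b i) (u : ℝ) {n J : ℕ} (hJ : R ^ J ≤ (n : ℝ)) :
    ∑ j ∈ range J, XX (sh 1 a') (sh R b') R (k + 1) j u ≤ CS a b k n u := by
  have hbs0 := bs_pos
  have hR0 : 0 < R := by linarith
  have h0 : ∀ (p : ℕ), 0 ≤ ff p (u + p * Real.log Bs.b) * ∏ i ∈ range k, cT (Pr (a i * p) (b i * p)) u := fun p =>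
    mul_nonneg (ff_nonneg _ _) (prod_nonneg fun i _ => cT_nonneg _ _)
  unfold CS
  calc ∑ j ∈ range J, XX (sh 1 a') (sh R b') R (k + 1) j u ≤
        ∑ j ∈ range J, ∑ p ∈ Pr (R ^ j) (R ^ (j + 1)),
          ff p (u + p * Real.log Bs.b) * ∏ i ∈ range k, cT (Pr (a i * p) (b i * p)) u := by
        refine sum_le_sum fun j _ => ?_
        rw [XX_sh]
        refine sum_le_sum fun p hp => ?_
        rw [mem_Pr (by positivity) (by positivity)] at hp
        obtain ⟨_, h1, h2⟩ := hp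
        refine mul_le_mul_of_nonneg_left ?_ (ff_nonneg _ _)
        refine prod_le_prod (fun i _ => cT_nonneg _ _) fun i hi => ?_
        obtain ⟨ha1, ha2⟩ := ha i (mem_range.1 hi)
        obtain ⟨hb1, hb2⟩ := hb i (mem_range.1 hi)
        have hRj : 0 < R ^ j := by positivity
        refine cT_mono (Pr_mono ?_ ?_) u
        · calc a i * (p : ℝ) ≤ a i * R ^ (j + 1) := mul_le_mul_of_nonneg_left h2 ha1.le
            _ = a i * R * R ^ j := by rw [pow_succ]; ring
            _ ≤ a' i * R ^ j := mul_le_mul_of_nonneg_right ha2 hRj.le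
        · exact mul_le_mul hb2 h1.le hRj.le (by linarith)
    _ = ∑ p ∈ (range J).biUnion (fun j => Pr (R ^ j) (R ^ (j + 1))),
          ff p (u + p * Real.log Bs.b) * ∏ i ∈ range k, cT (Pr (a i * p) (b i * p)) u := by
        rw [sum_biUnion]
        intro j _ j' _ hjj
        rw [Function.onFun, Finset.disjoint_left]
        intro p hp hp'
        rw [mem_Pr (by positivity) (by positivity)] at hp hp'
        rcases lt_or_gt_of_ne hjj with h | h
        · have : R ^ (j + 1) ≤ R ^ j' := pow_le_pow_right₀ hR.le h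
          linarith [hp.2.2, hp'.2.1]
        · have : R ^ (j' + 1) ≤ R ^ j := pow_le_pow_right₀ hR.le h
          linarith [hp'.2.2, hp.2.1]
    _ ≤ _ := by
        refine sum_le_sum_of_subset_of_nonneg (fun p hp => ?_) fun p _ _ => h0 p
        rw [mem_biUnion] at hp
        obtain ⟨j, hj, hp⟩ := hp
        rw [mem_Pr (by positivity) (by positivity)] at hp
        rw [mem_Pr le_rfl (Nat.cast_nonneg n)]
        have h3 : R ^ (j + 1) ≤ R ^ J := pow_le_pow_right₀ hR.le (mem_range.1 hj)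
        refine ⟨hp.1, ?_, hp.2.2.trans (h3.trans hJ)⟩
        exact_mod_cast hp.1.pos

/-- the law of large numbers at a point, for all rational windows -/
def LQ (u : ℝ) : Prop := ∀ (k m : ℕ) (A B : ℕ →₀ ℚ), Wd (fun i => (A i : ℝ)) (fun i => (B i : ℝ)) k →
  Tendsto (fun J : ℕ => (∑ j ∈ range J, XX (fun i => (A i : ℝ)) (fun i => (B i : ℝ)) (1 + 1 / ((m : ℝ) + 1)) k j u) / J)
    atTop (𝓝 (∏ i ∈ range k, cc * Real.log ((B i : ℝ) / A i)))

lemma XX_congr {a b a' b' : ℕ → ℝ} {k : ℕ} (ha : ∀ i < k, a i = a' i) (hb : ∀ i < k, b i = b' i) (R : ℝ) (j : ℕ)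
    (u : ℝ) : XX a b R k j u = XX a' b' R k j u := by
  have hbs0 := bs_pos
  unfold XX
  refine prod_congr rfl fun i hi => ?_
  rw [ha i (mem_range.1 hi), hb i (mem_range.1 hi)]

lemma LQ.rat {u : ℝ} (h : LQ u) (k m : ℕ) (f g : ℕ → ℚ) (hW : Wd (fun i => (f i : ℝ)) (fun i => (g i : ℝ)) k) :
    Tendsto (fun J : ℕ => (∑ j ∈ range J, XX (fun i => (f i : ℝ)) (fun i => (g i : ℝ)) (1 + 1 / ((m : ℝ) + 1)) k j u) / J)
      atTop (𝓝 (∏ i ∈ range k, cc * Real.log ((g i : ℝ) / f i))) := by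
  have hbs0 := bs_pos
  obtain ⟨A, hA⟩ := exists_finsupp k f
  obtain ⟨B, hB⟩ := exists_finsupp k g
  have hA' : ∀ i < k, (A i : ℝ) = f i := fun i hi => by rw [hA i hi]
  have hB' : ∀ i < k, (B i : ℝ) = g i := fun i hi => by rw [hB i hi]
  have hW' : Wd (fun i => (A i : ℝ)) (fun i => (B i : ℝ)) k :=
    ⟨fun i hi => by simp only [hA' i hi, hB' i hi]; exact hW.1 i hi,
      fun i j hij hj => by
        simp only [hA' j hj, hB' i (hij.trans hj)]; exact hW.2 i j hij hj⟩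
  have h1 := h k m A B hW'
  have e1 : ∏ i ∈ range k, cc * Real.log ((B i : ℝ) / A i) = ∏ i ∈ range k, cc * Real.log ((g i : ℝ) / f i) :=
    prod_congr rfl fun i hi => by rw [hA' i (mem_range.1 hi), hB' i (mem_range.1 hi)]
  rw [e1] at h1
  refine h1.congr fun J => ?_
  congr 1
  refine sum_congr rfl fun j _ => ?_
  exact XX_congr hA' hB' _ j u

theorem ae_LQ (hS : SilS) : ∀ᵐ u : ℝ, LQ u := by
  have hbs0 := bs_pos
  refine Pool.Agent.TH888.R.ae_windows fun b0 => ?_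
  unfold LQ
  rw [ae_all_iff]; intro k
  rw [ae_all_iff]; intro m
  rw [ae_all_iff]; intro A
  rw [ae_all_iff]; intro B
  by_cases h : Wd (fun i => (A i : ℝ)) (fun i => (B i : ℝ)) k
  · filter_upwards [lln hS b0 (R := 1 + 1 / ((m : ℝ) + 1)) (by
      have : 0 < 1 / ((m : ℝ) + 1) := by positivity
      linarith) _ _ k h] with u hu _
    exact hu
  · exact Eventually.of_forall fun u h' => absurd h' h

end Pool.Agent.H176B
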