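import Mathlib
import Pool.Agent.H176B.Pal2
import Pool.Agent.H176M.SilS

set_option autoImplicit false

/-!
# The theorems for every integer base
-/

namespace Pool.Agent.H176B

open Pool.Agent.H176M (Pr mem_Pr vT mertens_window silS bigO_set1 bigO_all1)
open Finset Filter Topology MeasureTheory Asymptotics
open Pool.Agent.H305R2 (roughPart NN ff)
open Pool.Agent.TH888.R (VS cS)

/-- the largest integer below `β b ^ r` -/
noncomputable def DB (b : ℕ) (β : ℝ) (r : ℕ) : ℕ := ⌈β * (b : ℝ) ^ r⌉₊ - 1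

/-- its `p`-rough part, for `r = p` -/
noncomputable def WB (b : ℕ) (β : ℝ) (p : ℕ) : ℕ := roughPart p (DB b β p)

/-- the number of exponents in a finite set -/
noncomputable def NB (b : ℕ) (T : Finset ℕ) (β : ℝ) : ℕ := (T.filter (fun p => (WB b β p).Prime)).card

/-- the set of exponents in `(x, y]` -/
noncomputable def EB (b : ℕ) (β x y : ℝ) : Finset ℕ :=
  (Finset.Ioc ⌊x⌋₊ ⌊y⌋₊).filter (fun p => p.Prime ∧ (WB b β p).Prime)

lemma DB_exp [Bs] (u : ℝ) (r : ℕ) : DB Bs.b (Real.exp u) r = NN (u + r * Real.log Bs.b) := by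
  unfold DB NN
  rw [exp_add_bs]

lemma NB_exp [Bs] (T : Finset ℕ) (u : ℝ) : (NB Bs.b T (Real.exp u) : ℝ) = cT T u := by
  unfold NB cT
  rw [Finset.card_eq_sum_ones, Finset.sum_filter]
  push_cast
  refine Finset.sum_congr rfl fun p _ => ?_
  unfold ff WB
  rw [DB_exp]

lemma EB_eq (b : ℕ) (β x y : ℝ) : EB b β x y = (Pr x y).filter (fun p => (WB b β p).Prime) := by
  unfold EB Pr
  rw [Finset.filter_filter]

lemma ff_WB [Bs] {β : ℝ} (hβ : 0 < β) (p : ℕ) :
    ff p (Real.log β + p * Real.log Bs.b) = if (WB Bs.b β p).Prime then 1 else 0 := by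
  unfold ff WB DB NN
  rw [exp_add_bs, Real.exp_log hβ]

lemma EB_card [Bs] {β : ℝ} (hβ : 0 < β) (x y : ℝ) :
    ((EB Bs.b β x y).card : ℝ) = cT (Pr x y) (Real.log β) := by
  rw [EB_eq]
  unfold cT
  rw [Finset.card_eq_sum_ones, Finset.sum_filter]
  push_cast
  refine Finset.sum_congr rfl fun p _ => ?_
  rw [ff_WB hβ]

/-- the law for a set of primes -/
theorem law_base (b : ℕ) (hb : 2 ≤ b) (S : Set ℕ) (hS : Tendsto (VS S) atTop atTop) : ∀ᵐ β : ℝ, 0 < β →
    (fun n : ℕ => (cS S (DB b β) n : ℝ) - Real.exp Real.eulerMascheroniConstant / Real.log b * VS S n)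
      =O[atTop] (fun n : ℕ => Real.sqrt (VS S n) * (Real.log (VS S n)) ^ 2) := by
  letI : Bs := ⟨b, hb⟩
  filter_upwards [law_bs silS S hS] with β hβ h0
  obtain ⟨B, hB, h⟩ := hβ h0
  exact bigO_set1 hB hS h

/-- the law for all primes -/
theorem law_all_base (b : ℕ) (hb : 2 ≤ b) : ∀ᵐ β : ℝ, 0 < β →
    (fun n : ℕ => (cS Set.univ (DB b β) n : ℝ) -
      Real.exp Real.eulerMascheroniConstant / Real.log b * Real.log n)
      =O[atTop] (fun n : ℕ => Real.sqrt (Real.log n) * (Real.log (Real.log n)) ^ 2) := by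
  letI : Bs := ⟨b, hb⟩
  filter_upwards [law_bs silS Set.univ Pool.Agent.TH888.R.VS_univ_tendsto] with β hβ h0
  obtain ⟨B, hB, h⟩ := hβ h0
  exact bigO_all1 hB h

/-- the joint correlations in the mean, given the leading digits -/
theorem joint_base (b : ℕ) (hb : 2 ≤ b) (k A : ℕ) (ρ : ℝ) (c d : ℕ → ℝ) (hρ : 0 ≤ ρ)
    (h0 : ∀ i < k, 0 < c i ∧ c i < d i) (h1 : ∀ i j : ℕ, i < j → j < k → 3 / 2 * d i < c j)
    (h2 : ∀ i < k, 3 / 2 * ρ < c i) (s t : ℝ) (hst : s ≤ t) (η : ℝ) (hη : 0 < η) : ∀ᶠ z : ℝ in atTop,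
      ∀ T : ℕ → Finset ℕ, (∀ i < k, ∀ p ∈ T i, p.Prime ∧ c i * z < p ∧ (p : ℝ) ≤ d i * z) →
      ∀ F : ℕ → ℝ, (∀ n, |F n| ≤ 1) →
        |(∫ u in s..t, F (DB b (Real.exp u) ⌊ρ * z⌋₊) *
            ∏ i ∈ Finset.range k, (NB b (T i) (Real.exp u) : ℝ)) -
          (∏ i ∈ Finset.range k, Real.exp Real.eulerMascheroniConstant / Real.log b * vT (T i)) *
            ∫ u in s..t, F (DB b (Real.exp u) ⌊ρ * z⌋₊)| ≤
        η * (∏ i ∈ Finset.range k, vT (T i)) *
          ((∫ u in s..t, |F (DB b (Real.exp u) ⌊ρ * z⌋₊)|) + 1 / z ^ A) := by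
  letI : Bs := ⟨b, hb⟩
  filter_upwards [joint silS ρ hρ c d A k h0 h1 h2 hst η hη, eventually_gt_atTop 0] with z hz hz0 T hT F hF
  have hTs : ∀ i < k, T i ⊆ Pr (c i * z) (d i * z) := fun i hi p hp => by
    obtain ⟨ai, abi⟩ := h0 i hi
    have bi : 0 < d i := ai.trans abi
    rw [mem_Pr (by positivity) (by positivity)]
    exact hT i hi p hp
  have h3 := hz T hTs F hF
  unfold ZT at h3
  have e1 : ∀ (u : ℝ) (r : ℕ), DB b (Real.exp u) r = NN (u + r * Real.log Bs.b) := fun u r => DB_exp u r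
  have e2 : ∀ (T : Finset ℕ) (u : ℝ), (NB b T (Real.exp u) : ℝ) = cT T u := fun T u => NB_exp T u
  simp only [intervalIntegral.integral_of_le hst, e1, e2]
  exact h3

/-- the correlation functions, for almost every amplitude -/
theorem corr_base (b : ℕ) (hb : 2 ≤ b) : ∀ᵐ β : ℝ, 0 < β → ∀ (k : ℕ) (c d : ℕ → ℝ),
      (∀ i < k, 3 / 2 < c i ∧ c i < d i) → (∀ i j : ℕ, i < j → j < k → 3 / 2 * d i < c j) →
      Tendsto (fun n : ℕ => (∑ p ∈ EB b β 0 n, ∏ i ∈ Finset.range k,
        ((EB b β (c i * p) (d i * p)).card : ℝ)) / Real.log n) atTop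
        (𝓝 (Real.exp Real.eulerMascheroniConstant / Real.log b * ∏ i ∈ Finset.range k,
          Real.exp Real.eulerMascheroniConstant / Real.log b * Real.log (d i / c i))) := by
  letI : Bs := ⟨b, hb⟩
  have h1 : ∀ᵐ β : ℝ, 0 < β → LQ (Real.log β) :=
    Pool.Agent.W66X.ae_of_exp' (P := fun β : ℝ => LQ (Real.log β)) (by
      filter_upwards [ae_LQ silS] with t ht
      rw [Real.log_exp]
      exact ht)
  filter_upwards [h1] with β hβ hβ0 k c d h2 h3
  have h4 := corr_of_LQ (hβ hβ0) h2 h3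
  refine h4.congr fun n => ?_
  congr 1
  unfold CS
  have e1 : ∀ x y : ℝ, ((EB b β x y).card : ℝ) = cT (Pr x y) (Real.log β) := fun x y => EB_card hβ0 x y
  have e2 : ∀ p : ℕ, ff p (Real.log β + p * Real.log Bs.b) = if (WB b β p).Prime then 1 else 0 := fun p =>
    ff_WB hβ0 p
  rw [EB_eq, Finset.sum_filter]
  refine Finset.sum_congr rfl fun p _ => ?_
  simp only [e1]
  rw [e2]
  split_ifs <;> simp

/-- the mean values of the correlations -/
theorem mean_base (b : ℕ) (hb : 2 ≤ b) (k : ℕ) (c d : ℕ → ℝ) (h0 : ∀ i < k, 0 < c i ∧ c i < d i)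
    (h1 : ∀ i j : ℕ, i < j → j < k → 3 / 2 * d i < c j) (s t : ℝ) (hst : s ≤ t) :
      Tendsto (fun z : ℝ => ∫ u in s..t,
        ∏ i ∈ Finset.range k, (NB b (Pr (c i * z) (d i * z)) (Real.exp u) : ℝ)) atTop
        (𝓝 ((t - s) * ∏ i ∈ Finset.range k,
          Real.exp Real.eulerMascheroniConstant / Real.log b * Real.log (d i / c i))) := by
  have hv : Tendsto (fun z : ℝ => ∏ i ∈ Finset.range k, vT (Pr (c i * z) (d i * z))) atTop
      (𝓝 (∏ i ∈ Finset.range k, Real.log (d i / c i))) :=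
    tendsto_finsetProd _ fun i hi => by
      obtain ⟨ai, abi⟩ := h0 i (Finset.mem_range.1 hi)
      exact mertens_window ai abi
  have hvc : Tendsto (fun z : ℝ => (t - s) * ∏ i ∈ Finset.range k,
      Real.exp Real.eulerMascheroniConstant / Real.log b * vT (Pr (c i * z) (d i * z))) atTop
      (𝓝 ((t - s) * ∏ i ∈ Finset.range k,
        Real.exp Real.eulerMascheroniConstant / Real.log b * Real.log (d i / c i))) :=
    (tendsto_finsetProd _ fun i hi => by
      obtain ⟨ai, abi⟩ := h0 i (Finset.mem_range.1 hi)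
      exact (mertens_window ai abi).const_mul _).const_mul _
  rw [Metric.tendsto_nhds]
  intro η hη
  set Lv := ∏ i ∈ Finset.range k, Real.log (d i / c i) with hLv
  have hLv0 : 0 ≤ Lv := Finset.prod_nonneg fun i hi => by
    obtain ⟨ai, abi⟩ := h0 i (Finset.mem_range.1 hi)
    exact Real.log_nonneg ((one_le_div ai).2 abi.le)
  have hη' : 0 < η / (2 * ((Lv + 1) * (t - s + 1))) := by
    have : 0 ≤ t - s := by linarith
    positivity
  filter_upwards [joint_base b hb k 0 0 c d le_rfl h0 h1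
    (fun i hi => by have := (h0 i hi).1; linarith) s t hst _ hη',
    (Metric.tendsto_nhds.1 hvc) (η / 2) (by linarith),
    hv.eventually_le_const (show Lv < Lv + 1 by linarith), eventually_gt_atTop 0] with z hz1 hz2 hz3 hz0
  have h3 := hz1 (fun i => Pr (c i * z) (d i * z)) (fun i hi p hp => by
      obtain ⟨ai, abi⟩ := h0 i hi
      have bi : 0 < d i := ai.trans abi
      rw [mem_Pr (by positivity) (by positivity)] at hp
      exact hp)
    (fun _ => 1) (fun n => by norm_num)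
  have h4 : ∫ u in s..t, (1 : ℝ) = t - s := by simp
  simp only [abs_one, h4, pow_zero, div_one, one_mul] at h3
  have h5 : η / (2 * ((Lv + 1) * (t - s + 1))) *
      (∏ i ∈ Finset.range k, vT (Pr (c i * z) (d i * z))) * (t - s + 1) ≤ η / 2 := by
    have hts : 0 < t - s + 1 := by linarith
    calc _ ≤ η / (2 * ((Lv + 1) * (t - s + 1))) * (Lv + 1) * (t - s + 1) := by
          refine mul_le_mul_of_nonneg_right (mul_le_mul_of_nonneg_left ?_ hη'.le) hts.le
          exact hz3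
      _ = η / 2 := by field_simp
  have h6 := h3.trans h5
  rw [Real.dist_eq]
  rw [Real.dist_eq] at hz2
  rw [abs_lt] at hz2 ⊢
  rw [abs_le] at h6
  constructor <;> linarith [h6.1, h6.2, hz2.1, hz2.2]

end Pool.Agent.H176B
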